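import Mathlib
import Pool.Agent.W163.CF.Defs

/-!
# Samuels / Feige inequality and hypergraph matchings: definitions and statements of the steps
-/

set_option autoImplicit false

namespace Pool.Agent.W890.SF

open Finset

/-! ## Part A: independent two-point variables

Items `i ∈ S`, present with probability `q i` (then of size `b i`), independent. -/

/-- weight of the outcome: exactly the items of `ω ⊆ S` are present -/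
noncomputable def Wt {ι : Type} [DecidableEq ι] (q : ι → ℝ) (S ω : Finset ι) : ℝ :=
  (∏ i ∈ ω, q i) * ∏ i ∈ S \ ω, (1 - q i)

/-- `P(Z < c)`, `Z` = total size of the present items of `S` -/
noncomputable def PU {ι : Type} [DecidableEq ι] (b q : ι → ℝ) (c : ℝ) (S : Finset ι) : ℝ :=
  ∑ ω ∈ S.powerset, if ∑ i ∈ ω, b i < c then Wt q S ω else 0

/-- `E (c - Z)^+` -/
noncomputable def PG {ι : Type} [DecidableEq ι] (b q : ι → ℝ) (c : ℝ) (S : Finset ι) : ℝ :=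
  ∑ ω ∈ S.powerset, if ∑ i ∈ ω, b i < c then Wt q S ω * (c - ∑ i ∈ ω, b i) else 0

/-- basic facts -/
def S_BAS : Prop := ∀ (ι : Type) [DecidableEq ι] (b q : ι → ℝ) (c : ℝ) (S : Finset ι), 0 < c →
  (∀ i ∈ S, 0 < b i ∧ 0 ≤ q i ∧ q i < 1) →
  0 < PU b q c S ∧ PU b q c S ≤ 1 ∧ PG b q c S ≤ c * PU b q c S ∧
    c - ∑ i ∈ S, b i * q i ≤ PG b q c S ∧ 0 < PG b q c S

/-- adding an item -/
def S_ADD : Prop := ∀ (ι : Type) [DecidableEq ι] (b q : ι → ℝ) (c : ℝ) (S : Finset ι) (x : ι), 0 < c →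
  (∀ i ∈ S, 0 < b i ∧ 0 ≤ q i ∧ q i < 1) → x ∈ S →
  PG b q c (S.erase x) - b x * q x * PU b q c (S.erase x) ≤ PG b q c S

/-- KEY: some item can be removed without decreasing the conditional mean of `c - Z` -/
def S_KEY : Prop := ∀ (ι : Type) [DecidableEq ι] (b q : ι → ℝ) (c : ℝ) (S : Finset ι), 0 < c →
  (∀ i ∈ S, 0 < b i ∧ 0 ≤ q i ∧ q i < 1) → S.Nonempty →
  ∃ x ∈ S, PG b q c S * PU b q c (S.erase x) ≤ PG b q c (S.erase x) * PU b q c S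

/-- the induction -/
def S_IND : Prop := ∀ (ι : Type) [DecidableEq ι] (b q : ι → ℝ) (c x w : ℝ) (S : Finset ι), 0 < c →
  (∀ i ∈ S, 0 < b i ∧ 0 ≤ q i ∧ q i < 1) → (∀ i ∈ S, b i * q i ≤ x) → 0 < x → x ≤ w →
  w * PU b q c S ≤ PG b q c S → c - ∑ i ∈ S, b i * q i ≤ w →
  w * (1 - x / w) ^ ((w - (c - ∑ i ∈ S, b i * q i)) / x) ≤ PG b q c S

/-- one variable inequality -/
def S_MONO : Prop := ∀ x ρ w : ℝ, 0 < x → x < 1 → 0 < ρ → ρ ≤ w → w ≤ 1 →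
  (x ≤ ρ ∨ (8 * (x - ρ) ≤ x ∧ 2 * x ≤ w)) →
  (1 - x) ^ ((1 - ρ) / x) * (1 + x / 4 * (1 - w)) ≤ (1 - x / w) ^ ((w - ρ) / x)

/-- two-point data with mean exactly `x`: values `a i` and `a i + b i`, the latter with probability
`q i` -/
structure TP (r : ℕ) (x : ℝ) (a b q : Fin r → ℝ) : Prop where
  a0 : ∀ i, 0 ≤ a i
  b0 : ∀ i, 0 < b i
  q0 : ∀ i, 0 ≤ q i
  q1 : ∀ i, q i < 1
  mean : ∀ i, a i + b i * q i = x

/-- `P(X_1 + ... + X_r < 1)` -/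
noncomputable def PP {r : ℕ} (a b q : Fin r → ℝ) : ℝ := PU b q (1 - ∑ i, a i) univ

/-- the conditional mean `w` of `c - Z`: bound with remainder -/
def S_TW : Prop := ∀ r : ℕ, 2 ≤ r → ∀ x : ℝ, 0 < x → (20 * r + 19) * x ≤ 20 →
  ∀ a b q : Fin r → ℝ, TP r x a b q → ∃ w : ℝ, 0 < w ∧ w ≤ 1 - ∑ i, a i ∧
    PG b q (1 - ∑ i, a i) univ = w * PP a b q ∧
    ((1 - x) ^ r * (1 + x / 4 * (1 - w)) ≤ PP a b q ∨ ((1 - x) ^ r ≤ 4 / 9 ∧ 19 / 40 ≤ PP a b q))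

/-- the bound for two-point variables -/
def S_T2A : Prop := ∀ r : ℕ, 2 ≤ r → ∀ x : ℝ, 0 < x → (20 * r + 19) * x ≤ 20 →
  ∀ a b q : Fin r → ℝ, TP r x a b q → (1 - x) ^ r ≤ PP a b q

/-- stability for two-point variables -/
def S_T2B : Prop := ∀ r : ℕ, 2 ≤ r → ∀ x0 γ : ℝ, 0 < x0 → 0 < γ → ∃ η : ℝ, 0 < η ∧
  ∀ x : ℝ, x0 ≤ x → (20 * r + 19) * x ≤ 20 →
  ∀ a b q : Fin r → ℝ, TP r x a b q → PP a b q ≤ (1 - x) ^ r + η →
    ∀ i, a i ≤ γ ∧ 1 - γ ≤ a i + b i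

/-- mixtures: if the law of `y v`, `v : V` uniform, is the mixture with weights `π p` of two-point laws -/
def S_MIX1 : Prop := ∀ (V P : Type) [Fintype V] [Fintype P] (y : V → ℝ) (π a b q : P → ℝ),
  (∀ φ : ℝ → ℝ, ∑ v, φ (y v) =
    (Fintype.card V : ℝ) * ∑ p, π p * ((1 - q p) * φ (a p) + q p * φ (a p + b p))) →
  ∀ r : ℕ, (({f : Fin r → V | ∑ i, y (f i) < 1}.ncard : ℕ) : ℝ) =
    (Fintype.card V : ℝ) ^ r * ∑ p : Fin r → P, (∏ i, π (p i)) *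
      PP (fun i => a (p i)) (fun i => b (p i)) (fun i => q (p i))

/-- decomposition of a law with mean `x` (not constant) into two-point laws with mean `x` -/
def S_MIX2 : Prop := ∀ (V : Type) [Fintype V] (y : V → ℝ) (x : ℝ), (∀ v, 0 ≤ y v) →
  ∑ v, y v = x * (Fintype.card V : ℝ) → (∃ v, y v ≠ x) →
  ∃ (P : Type) (_ : Fintype P) (π a b q : P → ℝ),
    (∀ p, 0 < π p) ∧ ∑ p, π p = 1 ∧
    (∀ p, 0 ≤ a p ∧ 0 < b p ∧ 0 ≤ q p ∧ q p < 1 ∧ a p + b p * q p = x) ∧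
    (∀ φ : ℝ → ℝ, ∑ v, φ (y v) =
      (Fintype.card V : ℝ) * ∑ p, π p * ((1 - q p) * φ (a p) + q p * φ (a p + b p))) ∧
    (∀ γ : ℝ, γ < x → x < 1 - γ → 
      (({v : V | γ < y v ∧ y v < 1 - γ}.ncard : ℕ) : ℝ) ≤ 2 * (Fintype.card V : ℝ) *
        ∑ p, (if a p ≤ γ ∧ 1 - γ ≤ a p + b p then 0 else π p))

/-- the sharp bound for i.i.d. variables with finitely many equally likely values -/
def S_SAB : Prop := ∀ r : ℕ, 2 ≤ r → ∀ x : ℝ, 0 < x → (20 * r + 19) * x ≤ 20 →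
  ∀ (V : Type) [Fintype V] [Nonempty V] (y : V → ℝ), (∀ v, 0 ≤ y v) →
    ∑ v, y v = x * (Fintype.card V : ℝ) →
    (1 - x) ^ r * (Fintype.card V : ℝ) ^ r ≤ (({f : Fin r → V | ∑ i, y (f i) < 1}.ncard : ℕ) : ℝ)

/-- stability: near equality forces `y` to be close to `{0, ≥ 1}`-valued -/
def S_SAS : Prop := ∀ r : ℕ, 2 ≤ r → ∀ x0 γ : ℝ, 0 < x0 → 0 < γ → ∃ η : ℝ, 0 < η ∧
  ∀ x : ℝ, x0 ≤ x → (20 * r + 19) * x ≤ 20 →
  ∀ (V : Type) [Fintype V] [Nonempty V] (y : V → ℝ), (∀ v, 0 ≤ y v) →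
    ∑ v, y v = x * (Fintype.card V : ℝ) →
    (({f : Fin r → V | ∑ i, y (f i) < 1}.ncard : ℕ) : ℝ) ≤ ((1 - x) ^ r + η) * (Fintype.card V : ℝ) ^ r →
    (({v : V | γ < y v ∧ y v < 1 - γ}.ncard : ℕ) : ℝ) ≤ γ * (Fintype.card V : ℝ)

/-! ## Part B: hypergraphs -/

/-- pairwise disjoint family -/
def Mtch {α : Type} (M : Finset (Finset α)) : Prop := ∀ e ∈ M, ∀ e' ∈ M, e ≠ e' → Disjoint e e'

/-- `k`-uniform -/
def Unif {α : Type} (k : ℕ) (F : Finset (Finset α)) : Prop := ∀ e ∈ F, e.card = k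

/-- `F` has `s` pairwise disjoint members -/
def HasM {α : Type} (F : Finset (Finset α)) (s : ℕ) : Prop := ∃ M ⊆ F, Mtch M ∧ M.card = s

/-- degree of a vertex -/
def dg {α : Type} [DecidableEq α] (F : Finset (Finset α)) (v : α) : ℕ :=
  (F.filter (fun e => v ∈ e)).card

/-- the weighted nibble theorem (`H115R4.nibble`, proved in the library) -/
def NIB : Prop := ∀ (r : ℕ) (θ : ℝ), 0 < θ →
    ∃ κ : ℝ, 0 < κ ∧ ∀ (ι α : Type) [Fintype ι] [DecidableEq ι] [DecidableEq α]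
      (A : ι → Finset α) (w : ι → ℝ),
      (∀ e, 0 ≤ w e) → (∀ e, (A e).Nonempty) → (∀ e, (A e).card ≤ r) →
      (∀ v, ∑ e ∈ univ.filter (fun e => v ∈ A e), w e ≤ 1) →
      (∀ u v, u ≠ v → ∑ e ∈ univ.filter (fun e => u ∈ A e ∧ v ∈ A e), w e ≤ κ) →
      (∀ e, w e ≤ κ) →
      ∃ M : Finset ι, (∀ e ∈ M, ∀ f ∈ M, e ≠ f → Disjoint (A e) (A f)) ∧ (∀ e ∈ M, 0 < w e) ∧
        (1 - θ) * ∑ e, w e ≤ (M.card : ℝ)

/-- matchings from robust covers: if every weight `y` with total at most `m` leaves at least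
`c n^k` edges uncovered, there is a matching with `(1-θ) m` edges -/
def S_ROB : Prop := ∀ k : ℕ, 2 ≤ k → ∀ c τ θ : ℝ, 0 < c → 0 < τ → 0 < θ → ∃ n0 : ℕ,
  ∀ (V : Type) [Fintype V] [DecidableEq V], n0 ≤ Fintype.card V →
  ∀ F : Finset (Finset V), Unif k F → ∀ m : ℝ, 0 ≤ m → m ≤ (Fintype.card V : ℝ) →
    (∀ y : V → ℝ, (∀ v, 0 ≤ y v) → ∑ v, y v ≤ m →
      c * (Fintype.card V : ℝ) ^ k ≤ ((F.filter (fun e => ∑ v ∈ e, y v ≤ 1 - τ)).card : ℝ)) →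
    ∃ M ⊆ F, Mtch M ∧ (1 - θ) * m ≤ (M.card : ℝ)

/-! ## Part C: few edges are needed (small matchings) -/

/-- Bollobás–Daykin–Erdős, edge version -/
def S_BDE : Prop := ∀ k : ℕ, 1 ≤ k → ∀ (α : Type) [DecidableEq α] (U : Finset α)
  (F : Finset (Finset α)) (s : ℕ), (∀ e ∈ F, e ⊆ U ∧ e.card = k) → 2 * k ^ 3 * (s + 1) ≤ U.card →
  U.card.choose k - (U.card - s).choose k < F.card → HasM F (s + 1)

/-- Bollobás–Daykin–Erdős, degree version -/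
def S_BDD : Prop := ∀ k : ℕ, 2 ≤ k → ∀ (α : Type) [DecidableEq α] (U : Finset α)
  (F : Finset (Finset α)) (t : ℕ), (∀ e ∈ F, e ⊆ U ∧ e.card = k) → 1 ≤ t → 4 * k ^ 3 * t ≤ U.card →
  (∀ v ∈ U, (U.card - 1).choose (k - 1) - (U.card - t).choose (k - 1) < dg F v) → HasM F t

/-- greedy extension of a matching by vertices of nearly full degree -/
def S_EXT : Prop := ∀ k : ℕ, 2 ≤ k → ∀ ξ : ℝ, 0 < ξ → ∃ δ : ℝ, 0 < δ ∧ ∃ n0 : ℕ,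
  ∀ (V : Type) [Fintype V] [DecidableEq V], n0 ≤ Fintype.card V →
  ∀ F : Finset (Finset V), Unif k F → ∀ A : Finset V,
    (∀ v ∈ A, (1 - δ) * (((Fintype.card V - 1).choose (k - 1) : ℕ) : ℝ) ≤ (dg F v : ℝ)) →
    ∀ M0 ⊆ F, Mtch M0 → (∀ e ∈ M0, Disjoint e A) →
    (k : ℝ) * (A.card + M0.card) ≤ (1 - ξ) * (Fintype.card V : ℝ) → HasM F (A.card + M0.card)

/-- a fractional cover from a small matching number -/
def S_DI1 : Prop := ∀ k : ℕ, 2 ≤ k → ∀ x0 c τ ε : ℝ, 0 < x0 → 0 < c → 0 < τ → 0 < ε → ∃ n0 : ℕ,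
  ∀ n : ℕ, n0 ≤ n → ∀ F : Finset (Finset (Fin n)), Unif k F → ∀ s : ℕ, x0 * n ≤ s → (1 + ε) * s ≤ n →
    ¬ HasM F (s + 1) →
    ∃ y : Fin n → ℝ, (∀ v, 0 ≤ y v) ∧ ∑ v, y v ≤ (1 + ε) * s ∧
      ((F.filter (fun e => ∑ v ∈ e, y v ≤ 1 - τ)).card : ℝ) < c * (n : ℝ) ^ k

/-- structure of the cover: almost all edges meet a set of at most `s + γ n` vertices -/
def S_DI2 : Prop := ∀ k : ℕ, 2 ≤ k → ∀ x0 γ : ℝ, 0 < x0 → 0 < γ →
  ∃ c τ ε : ℝ, 0 < c ∧ 0 < τ ∧ τ < 1 ∧ 0 < ε ∧ ∃ n0 : ℕ,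
  ∀ n : ℕ, n0 ≤ n → ∀ F : Finset (Finset (Fin n)), Unif k F → ∀ s : ℕ, x0 * n ≤ s →
    (40 * k + 39) * s ≤ 40 * n → n.choose k - (n - s).choose k ≤ F.card →
    ∀ y : Fin n → ℝ, (∀ v, 0 ≤ y v) → ∑ v, y v ≤ (1 + ε) * s →
      ((F.filter (fun e => ∑ v ∈ e, y v ≤ 1 - τ)).card : ℝ) < c * (n : ℝ) ^ k →
    ∃ S : Finset (Fin n), (S.card : ℝ) ≤ s + γ * n ∧
      ((F.filter (fun e => Disjoint e S)).card : ℝ) ≤ γ * (n : ℝ) ^ k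

/-- many vertices of nearly full degree -/
def S_DI3 : Prop := ∀ k : ℕ, 2 ≤ k → ∀ x0 γ : ℝ, 0 < x0 → 0 < γ → ∃ γ' : ℝ, 0 < γ' ∧ ∃ n0 : ℕ,
  ∀ n : ℕ, n0 ≤ n → ∀ F : Finset (Finset (Fin n)), Unif k F → ∀ s : ℕ, x0 * n ≤ s →
    (40 * k + 39) * s ≤ 40 * n → n.choose k - (n - s).choose k ≤ F.card →
    ∀ S : Finset (Fin n), (S.card : ℝ) ≤ s + γ' * n →
      ((F.filter (fun e => Disjoint e S)).card : ℝ) ≤ γ' * (n : ℝ) ^ k →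
    (s : ℝ) - γ * n ≤ ((univ.filter (fun v : Fin n =>
      (1 - γ) * (((n - 1).choose (k - 1) : ℕ) : ℝ) ≤ (dg F v : ℝ))).card : ℝ)

/-- dichotomy for the edge version (follows from `S_DI1`, `S_DI2`, `S_DI3`) -/
def S_DIC : Prop := ∀ k : ℕ, 2 ≤ k → ∀ x0 γ : ℝ, 0 < x0 → 0 < γ → ∃ n0 : ℕ,
  ∀ n : ℕ, n0 ≤ n → ∀ F : Finset (Finset (Fin n)), Unif k F → ∀ s : ℕ, x0 * n ≤ s →
    (40 * k + 39) * s ≤ 40 * n → n.choose k - (n - s).choose k ≤ F.card → ¬ HasM F (s + 1) →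
    (s : ℝ) - γ * n ≤ ((univ.filter (fun v : Fin n =>
      (1 - γ) * (((n - 1).choose (k - 1) : ℕ) : ℝ) ≤ (dg F v : ℝ))).card : ℝ)

/-- the Erdős matching conjecture for `n ≥ (k + 39/40) s`, `n` large -/
def S_EMC : Prop := ∀ k : ℕ, 2 ≤ k → ∃ n0 : ℕ, ∀ n : ℕ, n0 ≤ n → ∀ s : ℕ,
  (40 * k + 39) * s ≤ 40 * n → ∀ F : Finset (Finset (Fin n)), Unif k F →
  n.choose k - (n - s).choose k < F.card → HasM F (s + 1)

/-! ## Part D: perfect matchings and vertex degree -/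

/-- minimum vertex degree close to the threshold -/
def DegC {V : Type} [Fintype V] [DecidableEq V] (k : ℕ) (η : ℝ) (H : Finset (Finset V)) : Prop :=
  ∀ v : V, (1 - (1 - 1 / (k : ℝ)) ^ (k - 1) - η) * (((Fintype.card V - 1).choose (k - 1) : ℕ) : ℝ) ≤
    (dg H v : ℝ)

/-- nearly extremal: a set of at most `(1/k + γ) n` vertices meets all but `γ n^k` edges -/
def Extr {V : Type} [Fintype V] [DecidableEq V] (k : ℕ) (γ : ℝ) (H : Finset (Finset V)) : Prop :=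
  ∃ A : Finset V, (A.card : ℝ) ≤ (1 / (k : ℝ) + γ) * (Fintype.card V : ℝ) ∧
    ((H.filter (fun e => Disjoint e A)).card : ℝ) ≤ γ * (Fintype.card V : ℝ) ^ k

/-- one link: a dense `(k-1)`-uniform hypergraph against a weight of mean below `1/k` -/
def S_LNK : Prop := ∀ k : ℕ, 3 ≤ k → ∀ γ : ℝ, 0 < γ → ∃ η : ℝ, 0 < η ∧ ∀ ε : ℝ, 0 < ε → ε < 1 →
  ∃ c τ : ℝ, 0 < c ∧ 0 < τ ∧ τ < 1 ∧ ∃ n0 : ℕ,
  ∀ (V : Type) [Fintype V] [DecidableEq V], n0 ≤ Fintype.card V →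
  ∀ L : Finset (Finset V), Unif (k - 1) L →
    (1 - (1 - 1 / (k : ℝ)) ^ (k - 1) - η) * (((Fintype.card V - 1).choose (k - 1) : ℕ) : ℝ) ≤ (L.card : ℝ) →
  ∀ y : V → ℝ, (∀ v, 0 ≤ y v) → ∑ v, y v ≤ (1 - ε) * (Fintype.card V : ℝ) / k →
    c * (Fintype.card V : ℝ) ^ (k - 1) ≤ ((L.filter (fun e => ∑ v ∈ e, y v ≤ 1 - τ)).card : ℝ) ∨
    ∃ S : Finset V, (S.card : ℝ) ≤ (1 / (k : ℝ) + γ) * (Fintype.card V : ℝ) ∧
      (({v : V | v ∉ S ∧ γ < y v}.ncard : ℕ) : ℝ) ≤ γ * (Fintype.card V : ℝ)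

/-- uncovered edges in the non-extremal case -/
def S_NEU : Prop := ∀ k : ℕ, 3 ≤ k → ∀ γ : ℝ, 0 < γ → ∃ η : ℝ, 0 < η ∧ ∀ ε : ℝ, 0 < ε → ε < 1 →
  ∃ c τ : ℝ, 0 < c ∧ 0 < τ ∧ ∃ n0 : ℕ,
  ∀ (V : Type) [Fintype V] [DecidableEq V], n0 ≤ Fintype.card V →
  ∀ H : Finset (Finset V), Unif k H → DegC k η H → ¬ Extr k γ H →
  ∀ y : V → ℝ, (∀ v, 0 ≤ y v) → ∑ v, y v ≤ (1 - ε) * (Fintype.card V : ℝ) / k →
    c * (Fintype.card V : ℝ) ^ k ≤ ((H.filter (fun e => ∑ v ∈ e, y v ≤ 1 - τ)).card : ℝ)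

/-- almost perfect matchings in the non-extremal case -/
def S_NEA : Prop := ∀ k : ℕ, 3 ≤ k → ∀ γ : ℝ, 0 < γ → ∃ η : ℝ, 0 < η ∧ ∀ θ : ℝ, 0 < θ → ∃ n0 : ℕ,
  ∀ (V : Type) [Fintype V] [DecidableEq V], n0 ≤ Fintype.card V →
  ∀ H : Finset (Finset V), Unif k H → DegC k η H → ¬ Extr k γ H →
  ∃ M ⊆ H, Mtch M ∧ (1 - θ) * (Fintype.card V : ℝ) ≤ (k : ℝ) * (M.card : ℝ)

/-- perfect matchings in the non-extremal case -/
def S_NEP : Prop := ∀ k : ℕ, 3 ≤ k → ∀ γ : ℝ, 0 < γ → ∃ η : ℝ, 0 < η ∧ ∃ n0 : ℕ,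
  ∀ n : ℕ, n0 ≤ n → k ∣ n → ∀ H : Finset (Finset (Fin n)), Unif k H → DegC k η H → ¬ Extr k γ H →
    HasM H (n / k)

/-- the `(k-1)`-subsets of `(A ∪ B) \ {v}` with exactly `j` vertices in `A` -/
def tys {V : Type} [DecidableEq V] (k j : ℕ) (A B : Finset V) (v : V) : Finset (Finset V) :=
  (((A ∪ B).erase v).powersetCard (k - 1)).filter (fun S => (S ∩ A).card = j)

/-- those which form an edge of `H` with `v` -/
def ty {V : Type} [DecidableEq V] (k j : ℕ) (H : Finset (Finset V)) (A B : Finset V) (v : V) :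
    Finset (Finset V) :=
  (tys k j A B v).filter (fun S => insert v S ∈ H)

/-- typical partition: `A`, `B`, `X` partition the vertex set, `X` small, `|A|` close to `n/k`, the
vertices of `A` miss few `(k-1)`-subsets of `B`, the vertices of `B` miss few sets of types 1 and 2 -/
structure Typ {V : Type} [Fintype V] [DecidableEq V] (k : ℕ) (δ : ℝ) (H : Finset (Finset V))
    (A B X : Finset V) : Prop where
  dAB : Disjoint A B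
  dAX : Disjoint A X
  dBX : Disjoint B X
  cov : A ∪ B ∪ X = univ
  xs : (X.card : ℝ) ≤ δ * (Fintype.card V : ℝ)
  a1 : (A.card : ℝ) ≤ (1 / (k : ℝ) + δ) * (Fintype.card V : ℝ)
  a2 : (1 / (k : ℝ) - δ) * (Fintype.card V : ℝ) ≤ (A.card : ℝ)
  hA : ∀ v ∈ A, ((tys k 0 A B v).card : ℝ) - δ * (Fintype.card V : ℝ) ^ (k - 1) ≤
    ((ty k 0 H A B v).card : ℝ)
  hB : ∀ v ∈ B, ∀ j : ℕ, j = 1 ∨ j = 2 →
    ((tys k j A B v).card : ℝ) - δ * (Fintype.card V : ℝ) ^ (k - 1) ≤ ((ty k j H A B v).card : ℝ)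

/-- first half of the typical partition: `A'` of the right size, and a set `B` of almost all other
vertices each of which misses few of the `(k-1)`-sets meeting `A'` -/
def S_TYB : Prop := ∀ k : ℕ, 3 ≤ k → ∀ δ : ℝ, 0 < δ → ∃ γ : ℝ, 0 < γ ∧ ∃ n0 : ℕ,
  ∀ (V : Type) [Fintype V] [DecidableEq V], n0 ≤ Fintype.card V →
  ∀ H : Finset (Finset V), Unif k H → DegC k γ H → Extr k γ H →
  ∃ A' B : Finset V, Disjoint A' B ∧
    (Fintype.card V : ℝ) - A'.card - B.card ≤ δ * (Fintype.card V : ℝ) ∧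
    (A'.card : ℝ) ≤ (1 / (k : ℝ) + δ) * (Fintype.card V : ℝ) ∧
    (1 / (k : ℝ) - δ) * (Fintype.card V : ℝ) ≤ (A'.card : ℝ) ∧
    ∀ v ∈ B, (((((univ : Finset V).erase v).powersetCard (k - 1)).filter
      (fun S => ¬ Disjoint S A' ∧ insert v S ∉ H)).card : ℝ) ≤ δ * (Fintype.card V : ℝ) ^ (k - 1)

/-- nearly extremal hypergraphs have a typical partition -/
def S_TYP : Prop := ∀ k : ℕ, 3 ≤ k → ∀ δ : ℝ, 0 < δ → ∃ γ : ℝ, 0 < γ ∧ ∃ n0 : ℕ,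
  ∀ (V : Type) [Fintype V] [DecidableEq V], n0 ≤ Fintype.card V →
  ∀ H : Finset (Finset V), Unif k H → DegC k γ H → Extr k γ H →
  ∃ A B X : Finset V, Typ k δ H A B X

/-- the balanced typical case without exceptional vertices: perfect matching by shifting -/
def S_SHF : Prop := ∀ k : ℕ, 3 ≤ k → ∃ δ : ℝ, 0 < δ ∧ ∃ n0 : ℕ,
  ∀ (α : Type) [DecidableEq α] (N : ℕ) (A B : Finset α) (H : Finset (Finset α)), n0 ≤ N →
    Disjoint A B → A.card + B.card = N → B.card = (k - 1) * A.card →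
    (∀ v ∈ A, ((tys k 0 A B v).card : ℝ) - δ * (N : ℝ) ^ (k - 1) ≤ ((ty k 0 H A B v).card : ℝ)) →
    (∀ v ∈ B, ((tys k 1 A B v).card : ℝ) - δ * (N : ℝ) ^ (k - 1) ≤ ((ty k 1 H A B v).card : ℝ)) →
    ∃ M ⊆ H, Mtch M ∧ M.biUnion id = A ∪ B

/-- every vertex has many edges of type 0 or of type 1 -/
def S_XCL : Prop := ∀ k : ℕ, 3 ≤ k → ∃ ε δ : ℝ, 0 < ε ∧ 0 < δ ∧ ∃ n0 : ℕ,
  ∀ (V : Type) [Fintype V] [DecidableEq V], n0 ≤ Fintype.card V →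
  ∀ H : Finset (Finset V), Unif k H → DegC k δ H → ∀ A B X : Finset V, Typ k δ H A B X →
  ∀ v : V, ε * (Fintype.card V : ℝ) ^ (k - 1) ≤ ((ty k 0 H A B v).card : ℝ) ∨
    ε * (Fintype.card V : ℝ) ^ (k - 1) ≤ ((ty k 1 H A B v).card : ℝ)

/-- greedy cover of the exceptional vertices `XA`, `XB`, then `S_SHF` -/
def S_GRD : Prop := ∀ k : ℕ, 3 ≤ k → ∀ ε : ℝ, 0 < ε → ∃ δ : ℝ, 0 < δ ∧ ∃ n0 : ℕ,
  ∀ (α : Type) [DecidableEq α] (N : ℕ) (A B XA XB : Finset α) (H : Finset (Finset α)), n0 ≤ N →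
    Disjoint A B → Disjoint XA XB → Disjoint (A ∪ B) (XA ∪ XB) →
    (A.card + B.card + XA.card + XB.card = N) → (XA.card : ℝ) ≤ δ * N → (XB.card : ℝ) ≤ δ * N →
    B.card + XB.card = (k - 1) * (A.card + XA.card) →
    (∀ v ∈ A, ((tys k 0 A B v).card : ℝ) - δ * (N : ℝ) ^ (k - 1) ≤ ((ty k 0 H A B v).card : ℝ)) →
    (∀ v ∈ B, ((tys k 1 A B v).card : ℝ) - δ * (N : ℝ) ^ (k - 1) ≤ ((ty k 1 H A B v).card : ℝ)) →
    (∀ v ∈ XA, ε * (N : ℝ) ^ (k - 1) ≤ ((ty k 0 H A B v).card : ℝ)) →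
    (∀ v ∈ XB, ε * (N : ℝ) ^ (k - 1) ≤ ((ty k 1 H A B v).card : ℝ)) →
    ∃ M ⊆ H, Mtch M ∧ M.biUnion id = A ∪ B ∪ (XA ∪ XB)

/-- balancing, first case -/
def S_BL1 : Prop := ∀ k : ℕ, 3 ≤ k → ∀ (V : Type) [Fintype V] [DecidableEq V],
  k ∣ Fintype.card V → ∀ H : Finset (Finset V), Unif k H →
    (∀ v, (Fintype.card V - 1).choose (k - 1) - (Fintype.card V - Fintype.card V / k).choose (k - 1)
      < dg H v) →
    ∀ A1 : Finset V, A1.card ≤ Fintype.card V / k →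
    8 * k ^ 3 * (Fintype.card V / k - A1.card) ≤ Fintype.card V →
    ∃ M ⊆ H, Mtch M ∧ M.card = Fintype.card V / k - A1.card ∧ ∀ e ∈ M, Disjoint e A1

/-- balancing, second case -/
def S_BL2 : Prop := ∀ k : ℕ, 3 ≤ k → ∃ δ : ℝ, 0 < δ ∧ ∃ n0 : ℕ,
  ∀ (V : Type) [Fintype V] [DecidableEq V], n0 ≤ Fintype.card V →
  ∀ H : Finset (Finset V), Unif k H → ∀ A B X : Finset V, Typ k δ H A B X →
  ∀ σ : ℕ, (σ : ℝ) ≤ δ * (Fintype.card V : ℝ) →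
    ∃ M ⊆ H, Mtch M ∧ M.card = σ ∧ ∀ e ∈ M, e ⊆ A ∪ B ∧ (e ∩ A).card = 2

/-- perfect matchings in the extremal case -/
def S_EXP : Prop := ∀ k : ℕ, 3 ≤ k → ∃ γ : ℝ, 0 < γ ∧ ∃ n0 : ℕ,
  ∀ n : ℕ, n0 ≤ n → k ∣ n → ∀ H : Finset (Finset (Fin n)), Unif k H →
    (∀ v, (n - 1).choose (k - 1) - (n - n / k).choose (k - 1) < dg H v) → Extr k γ H →
    HasM H (n / k)

/-- the exact vertex degree threshold, upper bound -/
def S_PMU : Prop := ∀ k : ℕ, 3 ≤ k → ∃ n0 : ℕ, ∀ n : ℕ, n0 ≤ n → k ∣ n →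
  ∀ H : Finset (Finset (Fin n)), Unif k H →
    (∀ v, (n - 1).choose (k - 1) - (n - n / k).choose (k - 1) < dg H v) → HasM H (n / k)

/-- the exact vertex degree threshold, lower bound -/
def S_PML : Prop := ∀ k : ℕ, 2 ≤ k → ∀ n : ℕ, k ≤ n → k ∣ n →
  ∃ H : Finset (Finset (Fin n)), Unif k H ∧
    (∀ v, (n - 1).choose (k - 1) - (n - n / k).choose (k - 1) ≤ dg H v) ∧ ¬ HasM H (n / k)

end Pool.Agent.W890.SF
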