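import Mathlib
import Pool.Agent.W890.SF.Stm

/-!
# General range: statements of further steps
-/

set_option autoImplicit false

namespace Pool.Agent.W890.SF

open Finset Filter Topology

/-- one variable inequality (unimodality) -/
def S_UNI : Prop := ∀ x ρ w : ℝ, 0 < x → x < 1 → 0 < ρ → ρ + x ≤ w → w ≤ 1 →
  min (ρ / (ρ + x)) ((1 - x) ^ ((1 - ρ) / x)) ≤ (1 - x / w) ^ ((w - ρ) / x)

/-- the bound for two-point variables, general mean -/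
def S_T2G : Prop := ∀ r : ℕ, 1 ≤ r → ∀ x : ℝ, 0 < x → x < 1 → r * x < 1 →
  ∀ a b q : Fin r → ℝ, TP r x a b q →
    min ((1 - x) ^ r) ((1 - r * x) / (1 - (r - 1) * x)) ≤ PP a b q

/-- the bound for i.i.d. variables with finitely many equally likely values, general mean -/
def S_SAG : Prop := ∀ r : ℕ, 1 ≤ r → ∀ x : ℝ, 0 < x → x < 1 → r * x < 1 →
  ∀ (V : Type) [Fintype V] [Nonempty V] (y : V → ℝ), (∀ v, 0 ≤ y v) →
    ∑ v, y v = x * (Fintype.card V : ℝ) →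
    min ((1 - x) ^ r) ((1 - r * x) / (1 - (r - 1) * x)) * (Fintype.card V : ℝ) ^ r ≤
      (({f : Fin r → V | ∑ i, y (f i) < 1}.ncard : ℕ) : ℝ)

/-- asymptotic upper bound for all densities -/
def S_ASY : Prop := ∀ k : ℕ, 2 ≤ k → ∀ x : ℝ, 0 < x → k * x < 1 → ∀ ε : ℝ, 0 < ε → ∃ n0 : ℕ,
  ∀ n : ℕ, n0 ≤ n → ∀ F : Finset (Finset (Fin n)), Unif k F →
    (max (1 - (1 - x) ^ k) (x / (1 - (k - 1) * x)) + ε) * ((n.choose k : ℕ) : ℝ) ≤ (F.card : ℝ) →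
    HasM F (⌊x * n⌋₊ + 1)

/-- the largest number of edges of a `k`-uniform hypergraph on `Fin n` with matching number at most
`s` -/
noncomputable def mm (n k s : ℕ) : ℕ :=
  sSup {c : ℕ | ∃ F : Finset (Finset (Fin n)), F.card = c ∧ (∀ A ∈ F, A.card = k) ∧
    ∀ M : Finset (Finset (Fin n)), M ⊆ F → (M : Set (Finset (Fin n))).PairwiseDisjoint id → M.card ≤ s}

/-- elementary lower bounds and boundedness -/
def S_LOW : Prop := ∀ n k s : ℕ, 1 ≤ k → s ≤ n →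
  n.choose k - (n - s).choose k ≤ mm n k s ∧
  (k * (s + 1) - 1 ≤ n → (k * (s + 1) - 1).choose k ≤ mm n k s) ∧
  (∀ B : ℕ, (∀ F : Finset (Finset (Fin n)), Unif k F → B < F.card → HasM F (s + 1)) → mm n k s ≤ B)

/-- the limits of the lower bounds -/
def S_LIM : Prop := ∀ k : ℕ, 1 ≤ k → ∀ x : ℝ, 0 < x → x ≤ 1 →
  Tendsto (fun n : ℕ => ((n.choose k - (n - ⌊x * (n : ℝ)⌋₊).choose k : ℕ) : ℝ) / ((n.choose k : ℕ) : ℝ))
    atTop (𝓝 (1 - (1 - x) ^ k)) ∧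
  (k * x < 1 → Tendsto (fun n : ℕ => (((k * (⌊x * (n : ℝ)⌋₊ + 1) - 1).choose k : ℕ) : ℝ) /
    ((n.choose k : ℕ) : ℝ)) atTop (𝓝 ((k * x) ^ k)))

/-- the asymptotic Erdős matching problem, general statement -/
def S_R4 : Prop := ∀ k : ℕ, 2 ≤ k → ∀ x : ℝ, 0 < x → k * x < 1 →
  ((1 - x) ^ k ≤ (1 - k * x) / (1 - (k - 1) * x) →
    Tendsto (fun n : ℕ => (mm n k ⌊x * (n : ℝ)⌋₊ : ℝ) / ((n.choose k : ℕ) : ℝ)) atTop
      (𝓝 (max (1 - (1 - x) ^ k) ((k * x) ^ k)))) ∧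
  (∀ ε : ℝ, 0 < ε → ∀ᶠ n : ℕ in atTop,
    (mm n k ⌊x * (n : ℝ)⌋₊ : ℝ) / ((n.choose k : ℕ) : ℝ) ≤
      max (1 - (1 - x) ^ k) (x / (1 - (k - 1) * x)) + ε)

/-- the range of the condition in `S_R4` -/
def S_RNG : Prop := ∀ k : ℕ, 2 ≤ k → ∀ x : ℝ, 0 < x → (20 * k + 19) * x ≤ 20 →
  k * x < 1 ∧ (1 - x) ^ k ≤ (1 - k * x) / (1 - (k - 1) * x)

end Pool.Agent.W890.SF
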