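import Pool.Agent.W890.SF.R5
import Pool.Agent.W976.SAM.Bas
import Pool.Agent.W584.SAM.ADD
import Pool.Agent.W883.SAM.Key
import Pool.Agent.W503.SAM.Ind
import Pool.Agent.W45.SAM.Mono
import Pool.Agent.W880.SAM.TW
import Pool.Agent.W82.SAM.T2B
import Pool.Agent.W797.SAM.Mix1
import Pool.Agent.W856.SAM.Mix2
import Pool.Agent.W738.SAM.Sab
import Pool.Agent.W32.SAM.Sas
import Pool.Agent.W298.SAM.Rob
import Pool.Agent.W451.SAM.BDE
import Pool.Agent.W392.SAM.Ext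
import Pool.Agent.W803.SAM.Di1
import Pool.Agent.W637.SAM.DI2
import Pool.Agent.W735.SAM.DI3
import Pool.Agent.W395.SAM.Emc
import Pool.Agent.W804.SAM.Low
import Pool.Agent.W287.SAM.Lim
import Pool.Agent.W816.SAM.Uni
import Pool.Agent.W597.SAM.T2G
import Pool.Agent.W585.SAM.Sag
import Pool.Agent.W856.SAM.Rng
import Pool.Agent.W806.SAM.R4
import Pool.Agent.W99.SAM.Asy
import Pool.Agent.W163.CF.All
import Pool.Agent.H115R4.All

/-!
# Samuels / Feige inequality and the Erdős matching conjecture: all the steps together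
-/

set_option autoImplicit false

namespace Pool.Agent.W890.SF

theorem t_BAS : S_BAS := Pool.Agent.W976.SAM.bas
theorem t_ADD : S_ADD := Pool.Agent.W584.SAM.add
theorem t_KEY : S_KEY := Pool.Agent.W883.SAM.key
theorem t_IND : S_IND := Pool.Agent.W503.SAM.Ind.ind t_BAS t_ADD t_KEY
theorem t_MONO : S_MONO := Pool.Agent.W45.SAM.mono
theorem t_TW : S_TW := Pool.Agent.W880.SAM.tw t_BAS t_IND t_MONO
theorem t_T2A : S_T2A := Pool.Agent.W82.SAM.t2a t_TW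
theorem t_T2B : S_T2B := Pool.Agent.W82.SAM.t2b t_BAS t_TW t_T2A
theorem t_MIX1 : S_MIX1 := Pool.Agent.W797.SAM.mix1
theorem t_MIX2 : S_MIX2 := Pool.Agent.W856.SAM.Mix2.mix2
theorem t_SAB : S_SAB := Pool.Agent.W738.SAM.sab t_T2A t_MIX1 t_MIX2
theorem t_SAS : S_SAS := Pool.Agent.W32.SAM.sas t_T2A t_T2B t_MIX1 t_MIX2
theorem t_ROB : S_ROB := Pool.Agent.W298.SAM.Rob.rob Pool.Agent.W163.CF.t_S1 H115R4.nibble_T
theorem t_BDE : S_BDE := Pool.Agent.W451.SAM.bde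
theorem t_EXT : S_EXT := Pool.Agent.W392.SAM.Ext.ext
theorem t_DI1 : S_DI1 := Pool.Agent.W803.SAM.di1 t_ROB
theorem t_DI2 : S_DI2 := Pool.Agent.W637.SAM.di2 t_SAS
theorem t_DI3 : S_DI3 := Pool.Agent.W735.SAM.DI3.di3
theorem t_DIC : S_DIC := Pool.Agent.W395.SAM.dic t_DI1 t_DI2 t_DI3
theorem t_EMC : S_EMC := Pool.Agent.W395.SAM.emc t_BDE t_EXT t_DIC
theorem t_LOW : S_LOW := Pool.Agent.W804.SAM.low
theorem t_LIM : S_LIM := Pool.Agent.W287.SAM.lim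
theorem t_UNI : S_UNI := Pool.Agent.W816.SAM.Uni.uni
theorem t_T2G : S_T2G := Pool.Agent.W597.SAM.t2g t_BAS t_IND t_UNI
theorem t_SAG : S_SAG := Pool.Agent.W585.SAM.sag t_T2G t_MIX1 t_MIX2
theorem t_ASY : S_ASY := Pool.Agent.W99.SAM.asy t_SAG t_ROB
theorem t_R4 : S_R4 := Pool.Agent.W806.SAM.r4 t_ASY t_LOW t_LIM
theorem t_RNG : S_RNG := Pool.Agent.W856.SAM.Rng.rng

end Pool.Agent.W890.SF
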