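import Mathlib
import Pool.Agent.W890.SF.Stm2

set_option autoImplicit false

namespace Pool.Agent.W890.SF.R2

open Finset Pool.Agent.W890.SF

theorem mm_bdd (n k s : ℕ) : BddAbove {c : ℕ | ∃ F : Finset (Finset (Fin n)), F.card = c ∧
    (∀ A ∈ F, A.card = k) ∧ ∀ M : Finset (Finset (Fin n)), M ⊆ F →
      (M : Set (Finset (Fin n))).PairwiseDisjoint id → M.card ≤ s} := by
  refine ⟨Fintype.card (Finset (Fin n)), ?_⟩
  rintro c ⟨F, rfl, -, -⟩
  exact Finset.card_le_univ F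

theorem mm_nonempty (n k s : ℕ) : {c : ℕ | ∃ F : Finset (Finset (Fin n)), F.card = c ∧
    (∀ A ∈ F, A.card = k) ∧ ∀ M : Finset (Finset (Fin n)), M ⊆ F →
      (M : Set (Finset (Fin n))).PairwiseDisjoint id → M.card ≤ s}.Nonempty := by
  refine ⟨0, ∅, rfl, by simp, ?_⟩
  intro M hM _
  rw [Finset.subset_empty] at hM
  simp [hM]

theorem mm_mem (n k s : ℕ) : ∃ F : Finset (Finset (Fin n)), F.card = mm n k s ∧
    (∀ A ∈ F, A.card = k) ∧ ∀ M : Finset (Finset (Fin n)), M ⊆ F →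
      (M : Set (Finset (Fin n))).PairwiseDisjoint id → M.card ≤ s :=
  Nat.sSup_mem (mm_nonempty n k s) (mm_bdd n k s)

theorem le_mm {n k s : ℕ} (F : Finset (Finset (Fin n))) (hF : ∀ A ∈ F, A.card = k)
    (hM : ∀ M : Finset (Finset (Fin n)), M ⊆ F →
      (M : Set (Finset (Fin n))).PairwiseDisjoint id → M.card ≤ s) : F.card ≤ mm n k s :=
  le_csSup (mm_bdd n k s) ⟨F, rfl, hF, hM⟩

theorem value (h : S_EMC) (hl : S_LOW) (k : ℕ) (hk : 2 ≤ k) :
    ∃ n0 : ℕ, ∀ n : ℕ, n0 ≤ n → ∀ s : ℕ, (40 * k + 39) * s ≤ 40 * n →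
      k * (s + 1) ≤ n ∧ mm n k s = n.choose k - (n - s).choose k ∧
      (k * (s + 1) - 1).choose k ≤ n.choose k - (n - s).choose k := by
  obtain ⟨n0, h0⟩ := h k hk
  refine ⟨max n0 (2 * k * k + k), fun n hn s hs => ?_⟩
  have hn0 : n0 ≤ n := le_trans (le_max_left _ _) hn
  have hn1 : 2 * k * k + k ≤ n := le_trans (le_max_right _ _) hn
  have h1 : k * (s + 1) ≤ n := by
    rcases le_or_gt s (2 * k) with h2 | h2
    · calc k * (s + 1) ≤ k * (2 * k + 1) := Nat.mul_le_mul_left _ (by omega)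
        _ = 2 * k * k + k := by ring
        _ ≤ n := hn1
    · have h3 : 40 * (k * (s + 1)) ≤ (40 * k + 39) * s := by nlinarith
      omega
  have hsn : s ≤ n := by nlinarith
  obtain ⟨l1, l2, l3⟩ := hl n k s (by omega) hsn
  have hup : mm n k s ≤ n.choose k - (n - s).choose k :=
    l3 _ (fun F hF hc => h0 n hn0 s hs F hF hc)
  have heq : mm n k s = n.choose k - (n - s).choose k := le_antisymm hup l1
  refine ⟨h1, heq, ?_⟩
  rw [← heq]
  exact l2 (by omega)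

/-- Erdős matching conjecture, form of MP_9079fe_co -/
theorem greatest (h : S_EMC) (hl : S_LOW) (k : ℕ) (hk : 2 ≤ k) :
    ∃ n0 : ℕ, ∀ n : ℕ, n0 ≤ n → ∀ s : ℕ, (40 * k + 39) * s ≤ 40 * n →
      IsGreatest
        {m : ℕ | ∃ F : Finset (Finset (Fin n)),
          (∀ A ∈ F, A.card = k) ∧
          (∀ M ⊆ F, (M : Set (Finset (Fin n))).PairwiseDisjoint id → M.card ≤ s) ∧
          F.card = m}
        (max (n.choose k - (n - s).choose k) ((k * (s + 1) - 1).choose k)) ∧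
      (k * (s + 1) - 1).choose k ≤ n.choose k - (n - s).choose k ∧ k * (s + 1) ≤ n := by
  obtain ⟨n0, h0⟩ := value h hl k hk
  refine ⟨n0, fun n hn s hs => ?_⟩
  obtain ⟨h1, h2, h3⟩ := h0 n hn s hs
  refine ⟨?_, h3, h1⟩
  rw [max_eq_left h3, ← h2]
  constructor
  · obtain ⟨F, hF1, hF2, hF3⟩ := mm_mem n k s
    exact ⟨F, hF2, hF3, hF1⟩
  · rintro m ⟨F, hF1, hF2, rfl⟩
    exact le_mm F hF1 hF2

/-- Erdős matching conjecture, form of MP_1aab60_co -/
theorem form2 (h : S_EMC) (hl : S_LOW) (r : ℕ) (hr : 2 ≤ r) :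
    ∃ n0 : ℕ, ∀ n : ℕ, n0 ≤ n → ∀ k : ℕ, 1 ≤ k → (40 * r + 39) * (k - 1) ≤ 40 * n →
      r * k - 1 ≤ n ∧ (r * k - 1).choose r ≤ n.choose r - (n - k + 1).choose r ∧
      (∀ F : Finset (Finset (Fin n)),
          (∀ e ∈ F, e.card = r) →
          (¬ ∃ M : Finset (Finset (Fin n)), M ⊆ F ∧ M.card = k ∧
              ∀ a ∈ M, ∀ b ∈ M, a ≠ b → Disjoint a b) →
          F.card ≤ max (Nat.choose (r * k - 1) r)
                       (Nat.choose n r - Nat.choose (n - k + 1) r)) ∧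
      (∃ F : Finset (Finset (Fin n)),
          (∀ e ∈ F, e.card = r) ∧
          (¬ ∃ M : Finset (Finset (Fin n)), M ⊆ F ∧ M.card = k ∧
              ∀ a ∈ M, ∀ b ∈ M, a ≠ b → Disjoint a b) ∧
          F.card = max (Nat.choose (r * k - 1) r)
                       (Nat.choose n r - Nat.choose (n - k + 1) r)) := by
  obtain ⟨n0, h0⟩ := greatest h hl r hr
  refine ⟨n0, fun n hn k hk hkn => ?_⟩
  obtain ⟨s, rfl⟩ : ∃ s, k = s + 1 := ⟨k - 1, by omega⟩
  simp only [Nat.add_sub_cancel] at hkn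
  obtain ⟨⟨hg1, hg2⟩, h3, h1⟩ := h0 n hn s hkn
  have hsn : s + 1 ≤ n := le_trans (Nat.le_mul_of_pos_left _ (by omega)) h1
  have e1 : n - (s + 1) + 1 = n - s := by omega
  rw [e1]
  refine ⟨by omega, h3, ?_, ?_⟩
  · intro F hF hM
    rw [max_comm]
    apply hg2
    refine ⟨F, hF, ?_, rfl⟩
    intro M hMF hd
    by_contra hcon
    obtain ⟨M', hM', hc⟩ := Finset.exists_subset_card_eq (show s + 1 ≤ M.card by omega)
    apply hM
    refine ⟨M', hM'.trans hMF, hc, ?_⟩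
    intro a ha b hb hab
    exact hd (hM' ha) (hM' hb) hab
  · obtain ⟨F, hF1, hF2, hF3⟩ := hg1
    refine ⟨F, hF1, ?_, by rw [hF3, max_comm]⟩
    rintro ⟨M, hMF, hMc, hMd⟩
    have := hF2 M hMF (fun a ha b hb hab => hMd a ha b hb hab)
    omega

end Pool.Agent.W890.SF.R2
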