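import Mathlib
import Pool.Agent.W890.SF.R2

set_option autoImplicit false

namespace Pool.Agent.W890.SF.R3

open Finset Pool.Agent.W890.SF

/-- `H`, a set of `k`-element subsets of the vertex set `Fin n`, has a fractional matching of size
`s`: weights in `[0,1]` on the edges, total weight at most one at each vertex, total weight
exactly `s`. -/
def HasFracMatching {n : ℕ} (H : Finset (Finset (Fin n))) (s : ℝ) : Prop :=
  ∃ w : Finset (Fin n) → ℝ, (∀ e ∈ H, 0 ≤ w e ∧ w e ≤ 1) ∧
    (∀ v : Fin n, ∑ e ∈ H.filter (fun e => v ∈ e), w e ≤ 1) ∧ ∑ e ∈ H, w e = s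

/-- `f_0^s(k,n)`: the least `m` such that every `k`-uniform hypergraph on `n` vertices with at
least `m` edges has a fractional matching of size `s`. -/
noncomputable def f0 (k n s : ℕ) : ℕ :=
  sInf {m : ℕ | ∀ H : Finset (Finset (Fin n)), (∀ e ∈ H, e.card = k) → m ≤ H.card →
    HasFracMatching H s}

theorem frac_of_matching {n : ℕ} (H M : Finset (Finset (Fin n))) (hMH : M ⊆ H)
    (hd : ∀ e ∈ M, ∀ e' ∈ M, e ≠ e' → Disjoint e e') : HasFracMatching H (M.card : ℝ) := by
  classical
  refine ⟨fun e => if e ∈ M then 1 else 0, ?_, ?_, ?_⟩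
  · intro e _
    by_cases h : e ∈ M <;> simp [h]
  · intro v
    rw [← Finset.sum_filter, Finset.sum_const, nsmul_eq_mul, mul_one]
    have : ((H.filter (fun e => v ∈ e)).filter (fun e => e ∈ M)).card ≤ 1 := by
      rw [card_le_one]
      intro a ha b hb
      rw [mem_filter, mem_filter] at ha hb
      by_contra hab
      exact (Finset.disjoint_left.1 (hd a ha.2 b hb.2 hab)) ha.1.2 hb.1.2
    exact_mod_cast this
  · rw [← Finset.sum_filter, Finset.sum_const, nsmul_eq_mul, mul_one]
    congr 1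
    congr 1
    ext e
    rw [mem_filter]
    exact ⟨fun h => h.2, fun h => ⟨hMH h, h⟩⟩

/-- the total weight is at most the number of vertices of a cover -/
theorem total_le {n : ℕ} (H : Finset (Finset (Fin n))) (S : Finset (Fin n))
    (hS : ∀ e ∈ H, ¬ Disjoint e S) (w : Finset (Fin n) → ℝ) (hw : ∀ e ∈ H, 0 ≤ w e)
    (hl : ∀ v : Fin n, ∑ e ∈ H.filter (fun e => v ∈ e), w e ≤ 1) : ∑ e ∈ H, w e ≤ S.card := by
  classical
  calc ∑ e ∈ H, w e ≤ ∑ e ∈ H, ∑ v ∈ S, if v ∈ e then w e else 0 := by
        apply Finset.sum_le_sum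
        intro e he
        obtain ⟨v, hv, hvS⟩ := Finset.not_disjoint_iff.1 (hS e he)
        calc w e = if v ∈ e then w e else 0 := by rw [if_pos hv]
          _ ≤ _ := Finset.single_le_sum (f := fun v => if v ∈ e then w e else 0)
              (fun v _ => by
                by_cases h : v ∈ e
                · simp only [h, if_true]; exact hw e he
                · simp [h]) hvS
    _ = ∑ v ∈ S, ∑ e ∈ H, (if v ∈ e then w e else 0) := Finset.sum_comm
    _ ≤ ∑ v ∈ S, (1 : ℝ) := by
        apply Finset.sum_le_sum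
        intro v _
        rw [← Finset.sum_filter]
        exact hl v
    _ = S.card := by simp

/-- the `k`-sets meeting `S` -/
def meet {n : ℕ} (k : ℕ) (S : Finset (Fin n)) : Finset (Finset (Fin n)) :=
  ((univ : Finset (Fin n)).powersetCard k).filter (fun e => ¬ Disjoint e S)

theorem meet_card {n : ℕ} (k : ℕ) (S : Finset (Fin n)) :
    (meet k S).card = n.choose k - (n - S.card).choose k := by
  classical
  have h1 : ((univ : Finset (Fin n)).powersetCard k).filter (fun e => Disjoint e S) =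
      (univ \ S).powersetCard k := by
    ext e
    rw [mem_filter, mem_powersetCard, mem_powersetCard]
    constructor
    · rintro ⟨⟨-, hc⟩, hd⟩
      exact ⟨fun x hx => mem_sdiff.2 ⟨mem_univ _, fun hxS => Finset.disjoint_left.1 hd hx hxS⟩, hc⟩
    · rintro ⟨hs, hc⟩
      exact ⟨⟨subset_univ _, hc⟩, Finset.disjoint_left.2 fun x hx hxS => (mem_sdiff.1 (hs hx)).2 hxS⟩
  have h2 := Finset.card_filter_add_card_filter_not (s := (univ : Finset (Fin n)).powersetCard k)
    (fun e => Disjoint e S)
  rw [h1, card_powersetCard, card_powersetCard, card_sdiff_of_subset (subset_univ _), card_univ,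
    Fintype.card_fin] at h2
  unfold meet
  omega

theorem main (h : S_EMC) (hl : S_LOW) (k : ℕ) (hk : 2 ≤ k) :
    ∃ n0 : ℕ, ∀ n : ℕ, n0 ≤ n → ∀ s : ℕ, 1 ≤ s → (40 * k + 39) * (s - 1) ≤ 40 * n →
      f0 k n s = 1 + max (n.choose k - (n - s + 1).choose k) ((k * s - 1).choose k) ∧
      (k * s - 1).choose k ≤ n.choose k - (n - s + 1).choose k ∧ k * s ≤ n := by
  obtain ⟨n0, h0⟩ := R2.value h hl k hk
  obtain ⟨n1, h1⟩ := h k hk
  refine ⟨max n0 n1, fun n hn s hs hsn => ?_⟩
  have hn0 : n0 ≤ n := le_trans (le_max_left _ _) hn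
  have hn1 : n1 ≤ n := le_trans (le_max_right _ _) hn
  obtain ⟨t, rfl⟩ : ∃ t, s = t + 1 := ⟨s - 1, by omega⟩
  simp only [Nat.add_sub_cancel] at hsn
  obtain ⟨a1, a2, a3⟩ := h0 n hn0 t hsn
  have htn : t + 1 ≤ n := le_trans (Nat.le_mul_of_pos_left _ (by omega)) a1
  have e1 : n - (t + 1) + 1 = n - t := by omega
  rw [e1, max_eq_left a3]
  refine ⟨?_, a3, a1⟩
  set D : ℕ := n.choose k - (n - t).choose k with hD
  have hmem : 1 + D ∈ {m : ℕ | ∀ H : Finset (Finset (Fin n)), (∀ e ∈ H, e.card = k) → m ≤ H.card →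
      HasFracMatching H (t + 1 : ℕ)} := by
    intro H hH hc
    obtain ⟨M, hM, hMd, hMc⟩ := h1 n hn1 t hsn H hH (by omega)
    rw [← hMc]
    exact frac_of_matching H M hM hMd
  apply le_antisymm
  · exact Nat.sInf_le hmem
  · by_contra hcon
    have hle : f0 k n (t + 1) ≤ D := by omega
    have hm := Nat.sInf_mem ⟨_, hmem⟩
    obtain ⟨S, -, hSc⟩ := Finset.exists_subset_card_eq (s := (univ : Finset (Fin n))) (n := t)
      (by rw [card_univ, Fintype.card_fin]; omega)
    have hc := meet_card k S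
    rw [hSc] at hc
    have hu : ∀ e ∈ meet k S, e.card = k := fun e he =>
      (mem_powersetCard.1 (mem_filter.1 he).1).2
    obtain ⟨w, hw1, hw2, hw3⟩ := hm (meet k S) hu (by rw [hc]; exact hle)
    have := total_le (meet k S) S (fun e he => (mem_filter.1 he).2) w (fun e he => (hw1 e he).1) hw2
    rw [hw3, hSc] at this
    push_cast at this
    linarith

end Pool.Agent.W890.SF.R3
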