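import Mathlib
import Pool.Agent.W890.SF.R3

set_option autoImplicit false

namespace Pool.Agent.W890.SF.R5

open Finset Filter Topology Pool.Agent.W890.SF

/-- `w` is a fractional matching of `F` (the upper bound `w e ≤ 1` follows from the vertex
conditions when the edges are nonempty) -/
def FracM {n : ℕ} (F : Finset (Finset (Fin n))) (w : Finset (Fin n) → ℝ) : Prop :=
  (∀ e ∈ F, 0 ≤ w e) ∧ ∀ v : Fin n, ∑ e ∈ F.filter (fun e => v ∈ e), w e ≤ 1

/-- `m*(n,k,s)`: the largest number of edges of a `k`-uniform hypergraph on `Fin n` all of whose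
fractional matchings have size `< s + 1` -/
noncomputable def mstar (n k s : ℕ) : ℕ :=
  sSup {c : ℕ | ∃ F : Finset (Finset (Fin n)), F.card = c ∧ (∀ A ∈ F, A.card = k) ∧
    ∀ w : Finset (Fin n) → ℝ, FracM F w → ∑ e ∈ F, w e < s + 1}

theorem ms_bdd (n k s : ℕ) : BddAbove {c : ℕ | ∃ F : Finset (Finset (Fin n)), F.card = c ∧
    (∀ A ∈ F, A.card = k) ∧
    ∀ w : Finset (Fin n) → ℝ, FracM F w → ∑ e ∈ F, w e < s + 1} := by
  refine ⟨Fintype.card (Finset (Fin n)), ?_⟩
  rintro c ⟨F, rfl, -, -⟩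
  exact Finset.card_le_univ F

theorem ms_nonempty (n k s : ℕ) : {c : ℕ | ∃ F : Finset (Finset (Fin n)), F.card = c ∧
    (∀ A ∈ F, A.card = k) ∧
    ∀ w : Finset (Fin n) → ℝ, FracM F w → ∑ e ∈ F, w e < s + 1}.Nonempty := by
  refine ⟨0, ∅, rfl, by simp, ?_⟩
  intro w _
  simp only [sum_empty]
  positivity

theorem le_ms {n k s : ℕ} (F : Finset (Finset (Fin n))) (hF : ∀ A ∈ F, A.card = k)
    (hM : ∀ w : Finset (Fin n) → ℝ, FracM F w → ∑ e ∈ F, w e < s + 1) : F.card ≤ mstar n k s :=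
  le_csSup (ms_bdd n k s) ⟨F, rfl, hF, hM⟩

theorem ms_le_mm (n k s : ℕ) : mstar n k s ≤ mm n k s := by
  obtain ⟨F, hF1, hF2, hF3⟩ := Nat.sSup_mem (ms_nonempty n k s) (ms_bdd n k s)
  have : mstar n k s = F.card := hF1.symm
  rw [this]
  apply R2.le_mm F hF2
  intro M hM hd
  obtain ⟨w, hw1, hw2, hw3⟩ := R3.frac_of_matching F M hM
    (fun e he e' he' hne => hd he he' hne)
  have h1 := hF3 w ⟨fun e he => (hw1 e he).1, hw2⟩
  rw [hw3] at h1
  have h2 : M.card < s + 1 := by exact_mod_cast h1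
  omega

theorem ms_ge (n k s : ℕ) (hs : s ≤ n) : n.choose k - (n - s).choose k ≤ mstar n k s := by
  obtain ⟨S, -, hSc⟩ := Finset.exists_subset_card_eq (s := (univ : Finset (Fin n))) (n := s)
      (by rw [card_univ, Fintype.card_fin]; omega)
  have hc := R3.meet_card k S
  rw [hSc] at hc
  rw [← hc]
  apply le_ms
  · intro e he
    exact (mem_powersetCard.1 (mem_filter.1 he).1).2
  · rintro w ⟨hw1, hw2⟩
    have := R3.total_le (R3.meet k S) S (fun e he => (mem_filter.1 he).2) w hw1 hw2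
    rw [hSc] at this
    linarith

theorem exact (h : S_EMC) (hl : S_LOW) (k : ℕ) (hk : 2 ≤ k) :
    ∃ n0 : ℕ, ∀ n : ℕ, n0 ≤ n → ∀ s : ℕ, (40 * k + 39) * s ≤ 40 * n →
      mstar n k s = n.choose k - (n - s).choose k ∧
      mstar n k s = max (n.choose k - (n - s).choose k) ((k * (s + 1) - 1).choose k) := by
  obtain ⟨n0, h0⟩ := R2.value h hl k hk
  refine ⟨n0, fun n hn s hs => ?_⟩
  obtain ⟨h1, h2, h3⟩ := h0 n hn s hs
  have hsn : s ≤ n := by nlinarith
  have h4 : mstar n k s = n.choose k - (n - s).choose k :=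
    le_antisymm (h2 ▸ ms_le_mm n k s) (ms_ge n k s hsn)
  exact ⟨h4, by rw [max_eq_left h3]; exact h4⟩

theorem tend (hR : S_R4) (hL : S_LIM) (k : ℕ) (hk : 2 ≤ k) (x : ℝ) (hx : 0 < x)
    (hkx : k * x < 1) (hc : (1 - x) ^ k ≤ (1 - k * x) / (1 - (k - 1) * x)) :
    Tendsto (fun n : ℕ => (mstar n k ⌊x * (n : ℝ)⌋₊ : ℝ) / ((n.choose k : ℕ) : ℝ)) atTop
      (𝓝 (max (1 - (1 - x) ^ k) ((k * x) ^ k))) := by
  have hk2 : (2 : ℝ) ≤ k := by exact_mod_cast hk
  have hx1 : x ≤ 1 := by nlinarith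
  obtain ⟨hR1, -⟩ := hR k hk x hx hkx
  have hR1 := hR1 hc
  obtain ⟨hL1, -⟩ := hL k (by omega) x hx hx1
  -- the maximum is the first term: from the upper bound by `mm` and the condition
  have hmax : max (1 - (1 - x) ^ k) ((k * x) ^ k) = 1 - (1 - x) ^ k := by
    apply max_eq_left
    have h1 : 0 < 1 - (k - 1) * x := by nlinarith
    have h2 : (k * x) ^ k ≤ x / (1 - (k - 1) * x) := by
      set u : ℝ := k * x with hu
      have hu0 : 0 < u := by positivity
      -- `u^{k-1} (k - (k-1) u) ≤ 1`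
      have h3 : u ^ (k - 1) * (k - (k - 1) * u) ≤ 1 := by
        have h4 : 1 + (((k - 1 : ℕ) : ℝ) + 1) * (1 / u - 1) ≤ (1 + (1 / u - 1)) ^ ((k - 1) + 1) := by
          have := one_add_mul_le_pow (a := 1 / u - 1) (by
            have : 0 < 1 / u := by positivity
            linarith) ((k - 1) + 1)
          push_cast at this ⊢
          exact this
        have h5 : (k - 1) + 1 = k := by omega
        have h6 : ((k - 1 : ℕ) : ℝ) = (k : ℝ) - 1 := by
          rw [Nat.cast_sub (by omega)]; simp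
        rw [h5, h6] at h4
        have h7 : (1 + (1 / u - 1)) ^ k = 1 / u ^ k := by
          rw [show (1 : ℝ) + (1 / u - 1) = 1 / u by ring, one_div_pow]
        rw [h7] at h4
        have h8 : u ^ k = u ^ (k - 1) * u := by
          conv_lhs => rw [← h5, pow_succ]
        have h9 : 0 < u ^ k := by positivity
        rw [le_div_iff₀ h9] at h4
        have h10 : (1 + ((k : ℝ) - 1 + 1) * (1 / u - 1)) * u ^ k =
            u ^ (k - 1) * (k - (k - 1) * u) := by
          rw [h8]; field_simp; ring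
        rw [h10] at h4
        exact h4
      have hxu : x = u / k := by rw [hu]; field_simp
      rw [le_div_iff₀ h1]
      have h11 : u ^ k = u ^ (k - 1) * u := by
        conv_lhs => rw [show k = (k - 1) + 1 by omega, pow_succ]
      have h12 : u ^ k * (1 - (k - 1) * x) = (u ^ (k - 1) * (k - (k - 1) * u)) * (u / k) := by
        rw [h11, hxu]; field_simp
      rw [h12]
      calc (u ^ (k - 1) * (k - (k - 1) * u)) * (u / k) ≤ 1 * (u / k) :=
            mul_le_mul_of_nonneg_right h3 (by positivity)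
        _ = x := by rw [one_mul, ← hxu]
    have h13 : x / (1 - (k - 1) * x) = 1 - (1 - k * x) / (1 - (k - 1) * x) := by
      rw [eq_sub_iff_add_eq, ← add_div, div_eq_one_iff_eq h1.ne']
      ring
    linarith
  rw [hmax] at hR1 ⊢
  refine tendsto_of_tendsto_of_tendsto_of_le_of_le' hL1 hR1 ?_ ?_
  · filter_upwards with n
    apply div_le_div_of_nonneg_right _ (Nat.cast_nonneg _)
    have : ⌊x * (n : ℝ)⌋₊ ≤ n := by
      have h1 : x * n ≤ n := by nlinarith [Nat.cast_nonneg (α := ℝ) n]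
      exact Nat.floor_le_of_le h1
    exact_mod_cast ms_ge n k _ this
  · filter_upwards with n
    apply div_le_div_of_nonneg_right _ (Nat.cast_nonneg _)
    exact_mod_cast ms_le_mm n k _

theorem upper (hR : S_R4) (k : ℕ) (hk : 2 ≤ k) (x : ℝ) (hx : 0 < x)
    (hkx : k * x < 1) (ε : ℝ) (hε : 0 < ε) : ∀ᶠ n : ℕ in atTop,
    (mstar n k ⌊x * (n : ℝ)⌋₊ : ℝ) / ((n.choose k : ℕ) : ℝ) ≤
      max (1 - (1 - x) ^ k) (x / (1 - (k - 1) * x)) + ε := by
  obtain ⟨-, h⟩ := hR k hk x hx hkx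
  filter_upwards [h ε hε] with n hn
  refine le_trans ?_ hn
  apply div_le_div_of_nonneg_right _ (Nat.cast_nonneg _)
  exact_mod_cast ms_le_mm n k _

end Pool.Agent.W890.SF.R5
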