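import Mathlib
import Pool.Agent.W890.SF.R5

set_option autoImplicit false

namespace Pool.Agent.W890.SF.R6

open Finset Filter Topology Pool.Agent.W890.SF

/-- number of lethal `k`-subsets of the distribution `x` -/
noncomputable def L {n : ℕ} (k : ℕ) (x : Fin n → ℝ) : ℕ :=
  Set.ncard {V : Finset (Fin n) | V.card = k ∧ (1 : ℝ) ≤ ∑ i ∈ V, x i}

/-- the `1/j`-distribution -/
noncomputable def dose (n : ℕ) (h : ℝ) (j : ℕ) : Fin n → ℝ :=
  fun i => if i.val < min n ⌊h * (j : ℝ)⌋₊ then (1 : ℝ) / (j : ℝ) else 0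

theorem L_eq {n : ℕ} (k : ℕ) (x : Fin n → ℝ) (F : Finset (Finset (Fin n)))
    (hF : ∀ V, V ∈ F ↔ V.card = k ∧ (1 : ℝ) ≤ ∑ i ∈ V, x i) : L k x = F.card := by
  unfold L
  rw [← Set.ncard_coe_finset]
  congr 1
  ext V
  simp [hF]

theorem L_le_mm {n : ℕ} (k : ℕ) (x : Fin n → ℝ) (hx : ∀ i, 0 ≤ x i) :
    L k x ≤ mm n k ⌊∑ i, x i⌋₊ := by
  classical
  rw [L_eq k x (univ.filter (fun V => V.card = k ∧ (1 : ℝ) ≤ ∑ i ∈ V, x i)) (by simp)]
  apply R2.le_mm
  · intro A hA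
    exact (mem_filter.1 hA).2.1
  · intro M hM hd
    apply Nat.le_floor
    calc (M.card : ℝ) = ∑ V ∈ M, (1 : ℝ) := by simp
      _ ≤ ∑ V ∈ M, ∑ i ∈ V, x i := Finset.sum_le_sum (fun V hV => (mem_filter.1 (hM hV)).2.2)
      _ = ∑ i ∈ M.biUnion id, x i := by
          rw [Finset.sum_biUnion hd]
          rfl
      _ ≤ ∑ i, x i := Finset.sum_le_sum_of_subset_of_nonneg (subset_univ _) (fun i _ _ => hx i)

theorem L_le_choose {n : ℕ} (k : ℕ) (x : Fin n → ℝ) : L k x ≤ n.choose k := by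
  classical
  rw [L_eq k x (univ.filter (fun V => V.card = k ∧ (1 : ℝ) ≤ ∑ i ∈ V, x i)) (by simp)]
  calc _ ≤ (powersetCard k (univ : Finset (Fin n))).card := by
        apply card_le_card
        intro V hV
        rw [mem_powersetCard]
        exact ⟨subset_univ _, (mem_filter.1 hV).2.1⟩
    _ = n.choose k := by rw [card_powersetCard, card_univ, Fintype.card_fin]

theorem L_dose_one (n k : ℕ) (h : ℝ) (hh : ⌊h⌋₊ ≤ n) :
    L k (dose n h 1) = n.choose k - (n - ⌊h⌋₊).choose k := by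
  classical
  set s := ⌊h⌋₊ with hs
  set S : Finset (Fin n) := univ.filter (fun i => i.val < s) with hS
  have hSc : S.card = s := by
    have h1 : S.card = ((univ : Finset (Fin n)).filter (fun i => i.val < s)).card := rfl
    rw [h1, Fin.card_filter_val_lt]
    exact min_eq_right hh
  rw [L_eq k (dose n h 1) (R3.meet k S), R3.meet_card, hSc]
  intro V
  have hd : ∀ i : Fin n, dose n h 1 i = if i.val < s then (1 : ℝ) else 0 := by
    intro i
    unfold dose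
    rw [Nat.cast_one, mul_one, ← hs, min_eq_right hh, div_one]
  have hsum : ∑ i ∈ V, dose n h 1 i = ((V.filter (fun i => i.val < s)).card : ℝ) := by
    rw [Finset.sum_congr rfl (fun i _ => hd i), ← Finset.sum_filter, Finset.sum_const, nsmul_eq_mul,
      mul_one]
  rw [hsum]
  have h2 : (1 : ℝ) ≤ ((V.filter (fun i => i.val < s)).card : ℝ) ↔ ¬ Disjoint V S := by
    rw [Nat.one_le_cast, Nat.one_le_iff_ne_zero, Ne, Finset.card_eq_zero, not_iff_not,
      Finset.disjoint_left, Finset.filter_eq_empty_iff]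
    constructor
    · intro h3 a ha haS
      exact h3 ha (mem_filter.1 haS).2
    · intro h3 a ha haS
      exact h3 ha (mem_filter.2 ⟨mem_univ _, haS⟩)
  rw [h2]
  unfold R3.meet
  rw [mem_filter, mem_powersetCard]
  constructor
  · rintro ⟨⟨-, h3⟩, h4⟩
    exact ⟨h3, h4⟩
  · rintro ⟨h3, h4⟩
    exact ⟨⟨subset_univ _, h3⟩, h4⟩

theorem L_dose_k (n k : ℕ) (hk : 1 ≤ k) (h : ℝ) (hn : (n : ℝ) ≤ k * h) :
    L k (dose n h k) = n.choose k := by
  classical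
  have hk0 : (0 : ℝ) < k := by exact_mod_cast hk
  have hd : ∀ i : Fin n, dose n h k i = 1 / (k : ℝ) := by
    intro i
    unfold dose
    rw [if_pos]
    refine lt_min i.2 (lt_of_lt_of_le i.2 (Nat.le_floor ?_))
    rw [mul_comm]; exact hn
  rw [L_eq k (dose n h k) (powersetCard k univ), card_powersetCard, card_univ, Fintype.card_fin]
  intro V
  rw [mem_powersetCard, Finset.sum_congr rfl (fun i _ => hd i), Finset.sum_const, nsmul_eq_mul]
  constructor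
  · rintro ⟨-, h1⟩
    refine ⟨h1, ?_⟩
    rw [h1, mul_one_div_cancel hk0.ne']
  · rintro ⟨h1, -⟩
    exact ⟨subset_univ _, h1⟩

theorem exact (h : S_EMC) (hl : S_LOW) (k : ℕ) (hk : 2 ≤ k) :
    ∃ n0 : ℕ, ∀ n : ℕ, n0 ≤ n → ∀ h : ℝ, (40 * k + 39) * ⌊h⌋₊ ≤ 40 * n →
      L k (dose n h 1) = n.choose k - (n - ⌊h⌋₊).choose k ∧
      ∀ x : Fin n → ℝ, (∀ i, 0 ≤ x i) → ∑ i, x i = h → L k x ≤ L k (dose n h 1) := by
  obtain ⟨n0, h0⟩ := R2.value h hl k hk
  refine ⟨n0, fun n hn h hs => ?_⟩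
  obtain ⟨h1, h2, h3⟩ := h0 n hn _ hs
  have hsn : ⌊h⌋₊ ≤ n := by nlinarith
  have h4 := L_dose_one n k h hsn
  refine ⟨h4, fun x hx hxs => ?_⟩
  rw [h4, ← h2, ← hxs]
  exact L_le_mm k x hx

theorem upper (hR : S_R4) (k : ℕ) (hk : 2 ≤ k) (z : ℝ) (hz : 0 < z)
    (hkz : k * z < 1) (ε : ℝ) (hε : 0 < ε) : ∀ᶠ n : ℕ in atTop,
    ∀ x : Fin n → ℝ, (∀ i, 0 ≤ x i) → ∑ i, x i = z * n →
    (L k x : ℝ) ≤ (max (1 - (1 - z) ^ k) (z / (1 - (k - 1) * z)) + ε) * n.choose k := by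
  obtain ⟨-, h⟩ := hR k hk z hz hkz
  filter_upwards [h ε hε, eventually_ge_atTop k] with n hn hnk x hx hxs
  have hc : (0 : ℝ) < n.choose k := by exact_mod_cast Nat.choose_pos hnk
  rw [div_le_iff₀ hc] at hn
  refine le_trans ?_ hn
  have := L_le_mm k x hx
  rw [hxs] at this
  exact_mod_cast this

theorem lower (hL : S_LIM) (k : ℕ) (hk : 2 ≤ k) (z : ℝ) (hz : 0 < z)
    (hkz : k * z < 1) (ε : ℝ) (hε : 0 < ε) : ∀ᶠ n : ℕ in atTop,
    (1 - (1 - z) ^ k) * n.choose k ≤ (L k (dose n (z * n) 1) : ℝ) + ε * n.choose k := by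
  have hk2 : (2 : ℝ) ≤ k := by exact_mod_cast hk
  have hz1 : z ≤ 1 := by nlinarith
  obtain ⟨h1, -⟩ := hL k (by omega) z hz hz1
  have h2 := h1.eventually (lt_mem_nhds (show 1 - (1 - z) ^ k - ε < 1 - (1 - z) ^ k by linarith))
  filter_upwards [h2, eventually_ge_atTop k] with n hn hnk
  have hc : (0 : ℝ) < n.choose k := by exact_mod_cast Nat.choose_pos hnk
  have hfl : ⌊z * (n : ℝ)⌋₊ ≤ n := by
    have h1 : z * n ≤ n := by nlinarith [Nat.cast_nonneg (α := ℝ) n]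
    exact Nat.floor_le_of_le h1
  rw [L_dose_one n k _ hfl]
  rw [lt_div_iff₀ hc] at hn
  linarith

theorem asym (hR : S_R4) (hL : S_LIM) (k : ℕ) (hk : 2 ≤ k) (z : ℝ) (hz : 0 < z)
    (hkz : k * z < 1) (hc : (1 - z) ^ k ≤ (1 - k * z) / (1 - (k - 1) * z))
    (ε : ℝ) (hε : 0 < ε) : ∀ᶠ n : ℕ in atTop,
    ∀ x : Fin n → ℝ, (∀ i, 0 ≤ x i) → ∑ i, x i = z * n →
    (L k x : ℝ) ≤ (L k (dose n (z * n) 1) : ℝ) + ε * n.choose k := by
  have hk2 : (2 : ℝ) ≤ k := by exact_mod_cast hk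
  have hmax : max (1 - (1 - z) ^ k) (z / (1 - (k - 1) * z)) = 1 - (1 - z) ^ k := by
    apply max_eq_left
    have h1 : 0 < 1 - (k - 1) * z := by nlinarith
    have h13 : z / (1 - (k - 1) * z) = 1 - (1 - k * z) / (1 - (k - 1) * z) := by
      rw [eq_sub_iff_add_eq, ← add_div, div_eq_one_iff_eq h1.ne']
      ring
    linarith
  filter_upwards [upper hR k hk z hz hkz (ε / 2) (by linarith),
    lower hL k hk z hz hkz (ε / 2) (by linarith)] with n h1 h2 x hx hxs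
  have h3 := h1 x hx hxs
  rw [hmax] at h3
  linarith

end Pool.Agent.W890.SF.R6
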