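import Mathlib
import Pool.Agent.W890.SF.R6
import Pool.Agent.W593.IR.Stm

set_option autoImplicit false

namespace Pool.Agent.W890.SF.R7

open Finset Filter Topology Pool.Agent.W890.SF Pool.Agent.W890.SF.R6 Pool.Agent.W593.IR

theorem upperS (k : ℕ) (z : ℝ) (hz : 0 < z) (hU : UBS k z) (ε : ℝ) (hε : 0 < ε) :
    ∀ᶠ n : ℕ in atTop, ∀ x : Fin n → ℝ, (∀ i, 0 ≤ x i) → ∑ i, x i = z * n →
      (L k x : ℝ) ≤ (max (1 - (1 - z) ^ k) ((k * z) ^ k) + ε) * n.choose k := by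
  classical
  obtain ⟨η, hη, n0, h0⟩ := hU ε hε
  obtain ⟨n1, hn1⟩ := exists_nat_gt (1 / η)
  filter_upwards [eventually_ge_atTop n0, eventually_ge_atTop n1] with n hn hn' x hx hxs
  by_contra hcon
  rw [not_le] at hcon
  set F : Finset (Finset (Fin n)) :=
    univ.filter (fun V => V.card = k ∧ (1 : ℝ) ≤ ∑ i ∈ V, x i) with hF
  have hLF : L k x = F.card := L_eq k x F (by simp [hF])
  rw [hLF] at hcon
  obtain ⟨M, hM, hd, hc⟩ := h0 n hn F (fun e he => (mem_filter.1 he).2.1) (by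
    unfold mv; exact hcon.le)
  have hd' : (M : Set (Finset (Fin n))).PairwiseDisjoint id :=
    fun a ha b hb hab => hd a ha b hb hab
  have h1 : (M.card : ℝ) ≤ z * n := by
    calc (M.card : ℝ) = ∑ V ∈ M, (1 : ℝ) := by simp
      _ ≤ ∑ V ∈ M, ∑ i ∈ V, x i := Finset.sum_le_sum (fun V hV => (mem_filter.1 (hM hV)).2.2)
      _ = ∑ i ∈ M.biUnion id, x i := by
          rw [Finset.sum_biUnion hd']
          rfl
      _ ≤ ∑ i, x i := Finset.sum_le_sum_of_subset_of_nonneg (subset_univ _) (fun i _ _ => hx i)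
      _ = z * n := hxs
  rw [hc] at h1
  have h2 : (z + η) * n < (⌊(z + η) * (n : ℝ)⌋₊ : ℝ) + 1 := Nat.lt_floor_add_one _
  have h3 : 1 < η * n := by
    have : (n1 : ℝ) ≤ n := by exact_mod_cast hn'
    rw [div_lt_iff₀ hη] at hn1
    nlinarith
  nlinarith

theorem L_dose_k_ge (n k : ℕ) (hk : 1 ≤ k) (h : ℝ) (m : ℕ) (hm : m ≤ n) (hmh : m ≤ ⌊h * (k : ℝ)⌋₊) :
    m.choose k ≤ L k (dose n h k) := by
  classical
  have hk0 : (0 : ℝ) < k := by exact_mod_cast hk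
  set S : Finset (Fin n) := univ.filter (fun i => i.val < m) with hS
  have hSc : S.card = m := by
    have h1 : S.card = ((univ : Finset (Fin n)).filter (fun i => i.val < m)).card := rfl
    rw [h1, Fin.card_filter_val_lt]
    exact min_eq_right hm
  rw [L_eq k (dose n h k) (univ.filter (fun V => V.card = k ∧ (1 : ℝ) ≤ ∑ i ∈ V, dose n h k i))
    (by simp), ← hSc, ← card_powersetCard]
  apply card_le_card
  intro V hV
  rw [mem_powersetCard] at hV
  rw [mem_filter]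
  refine ⟨mem_univ _, hV.2, ?_⟩
  have : ∀ i ∈ V, dose n h k i = 1 / (k : ℝ) := by
    intro i hi
    unfold dose
    rw [if_pos]
    have h2 : i.val < m := (mem_filter.1 (hV.1 hi)).2
    exact lt_min i.2 (lt_of_lt_of_le h2 hmh)
  rw [Finset.sum_congr rfl this, Finset.sum_const, nsmul_eq_mul, hV.2, mul_one_div_cancel hk0.ne']

theorem lowerK (hL : S_LIM) (k : ℕ) (hk : 2 ≤ k) (z : ℝ) (hz : 0 < z)
    (hkz : k * z < 1) (ε : ℝ) (hε : 0 < ε) : ∀ᶠ n : ℕ in atTop,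
    (k * z) ^ k * n.choose k ≤ (L k (dose n (z * n) k) : ℝ) + ε * n.choose k := by
  have hk2 : (2 : ℝ) ≤ k := by exact_mod_cast hk
  have hkz0 : 0 < k * z := by positivity
  -- choose `δ`
  obtain ⟨δ, hδ, hδ1, hδ2⟩ : ∃ δ : ℝ, 0 < δ ∧ δ < k * z ∧ (k * z) ^ k - ε / 2 < (k * z - δ) ^ k := by
    have hcont : Tendsto (fun δ : ℝ => (k * z - δ) ^ k) (𝓝[>] 0) (𝓝 ((k * z - 0) ^ k)) := by
      have : Continuous (fun δ : ℝ => (k * z - δ) ^ k) := by fun_prop
      exact (this.tendsto 0).mono_left nhdsWithin_le_nhds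
    rw [sub_zero] at hcont
    have h1 := hcont.eventually (lt_mem_nhds (show (k * z) ^ k - ε / 2 < (k * z) ^ k by linarith))
    have h2 : ∀ᶠ δ : ℝ in 𝓝[>] 0, 0 < δ := eventually_mem_nhdsWithin
    have h3 : ∀ᶠ δ : ℝ in 𝓝[>] 0, δ < k * z :=
      (nhdsWithin_le_nhds : 𝓝[>] (0 : ℝ) ≤ 𝓝 0) (gt_mem_nhds hkz0)
    obtain ⟨δ, h⟩ := (h1.and (h2.and h3)).exists
    exact ⟨δ, h.2.1, h.2.2, h.1⟩
  set y : ℝ := 1 - (k * z - δ) with hy
  have hy0 : 0 < y := by linarith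
  have hy1 : y ≤ 1 := by linarith
  obtain ⟨h1, -⟩ := hL k (by omega) y hy0 hy1
  have h2 := h1.eventually (gt_mem_nhds (show 1 - (1 - y) ^ k < 1 - (1 - y) ^ k + ε / 2 by linarith))
  obtain ⟨n1, hn1⟩ := exists_nat_gt (1 / δ)
  filter_upwards [h2, eventually_ge_atTop k, eventually_ge_atTop n1] with n hn hnk hnn
  have hc : (0 : ℝ) < n.choose k := by exact_mod_cast Nat.choose_pos hnk
  have hn0 : (0 : ℝ) ≤ n := Nat.cast_nonneg n
  have hfl : ⌊y * (n : ℝ)⌋₊ ≤ n := by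
    have h1 : y * n ≤ n := by nlinarith
    exact Nat.floor_le_of_le h1
  have h3 : 1 < δ * n := by
    have : (n1 : ℝ) ≤ n := by exact_mod_cast hnn
    rw [div_lt_iff₀ hδ] at hn1
    nlinarith
  have h4 : n - ⌊y * (n : ℝ)⌋₊ ≤ ⌊z * n * (k : ℝ)⌋₊ := by
    apply Nat.le_floor
    rw [Nat.cast_sub hfl]
    have h5 : y * n < (⌊y * (n : ℝ)⌋₊ : ℝ) + 1 := Nat.lt_floor_add_one _
    have h6 : y * (n : ℝ) = n - z * n * k + δ * n := by rw [hy]; ring
    linarith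
  have h7 := L_dose_k_ge n k (by omega) (z * n) (n - ⌊y * (n : ℝ)⌋₊) (Nat.sub_le _ _) h4
  have h8 : ((n - ⌊y * (n : ℝ)⌋₊).choose k : ℝ) ≤ (L k (dose n (z * n) k) : ℝ) := by
    exact_mod_cast h7
  have h9 : (n - ⌊y * (n : ℝ)⌋₊).choose k ≤ n.choose k := Nat.choose_le_choose _ (Nat.sub_le _ _)
  rw [Nat.cast_sub h9, div_lt_iff₀ hc] at hn
  have h10 : (1 - y) = k * z - δ := by rw [hy]; ring
  rw [h10] at hn
  have h11 : (k * z) ^ k * (n.choose k : ℝ) ≤ ((k * z - δ) ^ k + ε / 2) * n.choose k :=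
    mul_le_mul_of_nonneg_right (by linarith) hc.le
  linarith

/-- asymptotic optimality of the `1/1`- or the `1/k`-distribution -/
theorem asymS (hL : S_LIM) (k : ℕ) (hk : 2 ≤ k) (z : ℝ) (hz : 0 < z) (hz1 : z ≤ 1 / (k : ℝ))
    (hU : z = 1 / (k : ℝ) ∨ ((k : ℝ) * z < 1 ∧ UBS k z)) (ε : ℝ) (hε : 0 < ε) :
    ∀ᶠ n : ℕ in atTop, ∀ x : Fin n → ℝ, (∀ i, 0 ≤ x i) → ∑ i, x i = z * n →
      (L k x : ℝ) ≤ max (L k (dose n (z * n) 1) : ℝ) (L k (dose n (z * n) k)) +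
        ε * n.choose k := by
  have hk2 : (2 : ℝ) ≤ k := by exact_mod_cast hk
  rcases hU with h | ⟨hkz, hU⟩
  · filter_upwards with n x hx hxs
    have h1 := L_dose_k n k (by omega) (z * n) (by rw [h]; field_simp; exact le_refl _)
    have h2 := L_le_choose k x
    rw [← h1] at h2
    have h3 : (L k x : ℝ) ≤ L k (dose n (z * n) k) := by exact_mod_cast h2
    have h4 : (0 : ℝ) ≤ ε * n.choose k := by positivity
    have h5 := le_max_right (L k (dose n (z * n) 1) : ℝ) (L k (dose n (z * n) k) : ℝ)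
    linarith
  · filter_upwards [upperS k z hz hU (ε / 2) (by linarith),
      lower hL k hk z hz hkz (ε / 2) (by linarith),
      lowerK hL k hk z hz hkz (ε / 2) (by linarith)] with n h1 h2 h3 x hx hxs
    have h4 := h1 x hx hxs
    have hc : (0 : ℝ) ≤ n.choose k := Nat.cast_nonneg _
    rw [add_mul] at h4
    rcases max_choice (1 - (1 - z) ^ k) ((k * z) ^ k) with h5 | h5
    · rw [h5] at h4
      have := le_max_left (L k (dose n (z * n) 1) : ℝ) (L k (dose n (z * n) k) : ℝ)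
      linarith
    · rw [h5] at h4
      have := le_max_right (L k (dose n (z * n) 1) : ℝ) (L k (dose n (z * n) k) : ℝ)
      linarith

end Pool.Agent.W890.SF.R7
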