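import Mathlib
import Pool.Agent.W890.SF.Stm

set_option autoImplicit false

namespace Pool.Agent.W890.SF.R1

open Finset Pool.Agent.W890.SF

/-- every edge of the hypergraph `H` on the vertex set `Fin n` has exactly `k` vertices -/
def IsUniform {n : ℕ} (k : ℕ) (H : Finset (Finset (Fin n))) : Prop := ∀ e ∈ H, e.card = k

/-- degree of the vertex `v`: the number of edges containing `v` -/
def degree {n : ℕ} (H : Finset (Finset (Fin n))) (v : Fin n) : ℕ :=
  (H.filter (fun e => v ∈ e)).card

/-- `H` has a perfect matching: pairwise disjoint edges covering every vertex -/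
def HasPerfectMatching {n : ℕ} (H : Finset (Finset (Fin n))) : Prop :=
  ∃ M : Finset (Finset (Fin n)), M ⊆ H ∧ (∀ e ∈ M, ∀ e' ∈ M, e ≠ e' → Disjoint e e') ∧
    ∀ v : Fin n, ∃ e ∈ M, v ∈ e

/-- `m1 k n`: the smallest `d` such that every `k`-uniform hypergraph on `n` vertices with
minimum vertex degree at least `d` has a perfect matching -/
noncomputable def m1 (k n : ℕ) : ℕ :=
  sInf {d : ℕ | ∀ H : Finset (Finset (Fin n)), IsUniform k H → (∀ v, d ≤ degree H v) →
    HasPerfectMatching H}

theorem perfect_iff {n k : ℕ} (hk : 1 ≤ k) (hkn : k ∣ n) (H : Finset (Finset (Fin n)))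
    (hH : IsUniform k H) : HasPerfectMatching H ↔ HasM H (n / k) := by
  classical
  have hcard : ∀ M : Finset (Finset (Fin n)), M ⊆ H → Mtch M → (M.biUnion id).card = M.card * k := by
    intro M hM hm
    rw [Finset.card_biUnion]
    · rw [Finset.sum_const_nat (m := k)]
      intro e he
      exact hH e (hM he)
    · intro e he e' he' hne
      exact hm e he e' he' hne
  constructor
  · rintro ⟨M, hM, hd, hc⟩
    refine ⟨M, hM, hd, ?_⟩
    have h1 : M.biUnion id = univ := by
      ext v
      simp only [mem_biUnion, mem_univ, iff_true, id]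
      exact hc v
    have h2 := hcard M hM hd
    rw [h1, card_univ, Fintype.card_fin] at h2
    have h3 : n / k = M.card := by
      conv_lhs => rw [h2]
      exact Nat.mul_div_cancel _ (by omega)
    exact h3.symm
  · rintro ⟨M, hM, hd, hc⟩
    refine ⟨M, hM, hd, ?_⟩
    have h2 := hcard M hM hd
    rw [hc, Nat.div_mul_cancel hkn] at h2
    have h1 : M.biUnion id = univ := by
      rw [← Finset.card_eq_iff_eq_univ, h2, Fintype.card_fin]
    intro v
    have : v ∈ M.biUnion id := by rw [h1]; exact mem_univ v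
    simpa using this

theorem main (hU : S_PMU) (hL : S_PML) (k : ℕ) (hk : 3 ≤ k) :
    ∃ n0 : ℕ, ∀ n : ℕ, n0 ≤ n → k ∣ n →
      m1 k n = (n - 1).choose (k - 1) - (n - n / k).choose (k - 1) + 1 := by
  obtain ⟨n0, h0⟩ := hU k hk
  refine ⟨max n0 k, fun n hn hkn => ?_⟩
  have hn0 : n0 ≤ n := le_trans (le_max_left _ _) hn
  have hnk : k ≤ n := le_trans (le_max_right _ _) hn
  set D : ℕ := (n - 1).choose (k - 1) - (n - n / k).choose (k - 1) with hD
  apply le_antisymm
  · apply Nat.sInf_le
    intro H hH hd
    rw [perfect_iff (by omega) hkn H hH]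
    exact h0 n hn0 hkn H hH (fun v => lt_of_lt_of_le (Nat.lt_succ_self _) (hd v))
  · have hne : {d : ℕ | ∀ H : Finset (Finset (Fin n)), IsUniform k H → (∀ v, d ≤ degree H v) →
        HasPerfectMatching H}.Nonempty := by
      refine ⟨D + 1, ?_⟩
      intro H hH hd
      rw [perfect_iff (by omega) hkn H hH]
      exact h0 n hn0 hkn H hH (fun v => lt_of_lt_of_le (Nat.lt_succ_self _) (hd v))
    have hmem := Nat.sInf_mem hne
    by_contra hcon
    have hle : m1 k n ≤ D := by
      have : m1 k n < D + 1 := not_le.1 hcon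
      omega
    obtain ⟨H, hHu, hHd, hHn⟩ := hL k (by omega) n hnk hkn
    apply hHn
    rw [← perfect_iff (by omega) hkn H hHu]
    exact hmem H hHu (fun v => le_trans hle (hHd v))

end Pool.Agent.W890.SF.R1
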