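import Pool.Agent.W890.SF.All
import Pool.Agent.W890.SF.R1
import Pool.Agent.W63.SAM.BDD
import Pool.Agent.W19.SAM.LNK
import Pool.Agent.W398.SAM.Neu
import Pool.Agent.W436.SAM.Nea
import Pool.Agent.W681.SAM.Nep
import Pool.Agent.W54.SAM.TYB
import Pool.Agent.W878.SAM.Typ
import Pool.Agent.W412.SAM.SHF
import Pool.Agent.W405.SAM.XCL
import Pool.Agent.W140.SAM.GRD
import Pool.Agent.W85.SAM.BL1
import Pool.Agent.W351.SAM.BL2
import Pool.Agent.W414.SAM.Exp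
import Pool.Agent.W899.SAM.PMU
import Pool.Agent.W764.SAM.Pml

/-!
# The exact vertex degree threshold for perfect matchings: all the steps together
-/

set_option autoImplicit false

namespace Pool.Agent.W890.SF

theorem t_BDD : S_BDD := Pool.Agent.W63.SAM.BDD.bdd
theorem t_LNK : S_LNK := Pool.Agent.W19.SAM.lnk t_SAS
theorem t_NEU : S_NEU := Pool.Agent.W398.SAM.neu t_LNK
theorem t_NEA : S_NEA := Pool.Agent.W436.SAM.nea t_NEU t_ROB
theorem t_NEP : S_NEP := Pool.Agent.W681.SAM.nep t_NEA Pool.Agent.W163.CF.t_S10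
theorem t_TYB : S_TYB := Pool.Agent.W54.SAM.tyb
theorem t_TYP : S_TYP := Pool.Agent.W878.SAM.typ t_TYB
theorem t_SHF : S_SHF := Pool.Agent.W412.SAM.shf
theorem t_XCL : S_XCL := Pool.Agent.W405.SAM.XCL.xcl
theorem t_GRD : S_GRD := Pool.Agent.W140.SAM.grd t_SHF
theorem t_BL1 : S_BL1 := Pool.Agent.W85.SAM.BL1.bl1 t_BDD
theorem t_BL2 : S_BL2 := Pool.Agent.W351.SAM.bl2
theorem t_EXP : S_EXP := Pool.Agent.W414.SAM.exp t_TYP t_XCL t_GRD t_BL1 t_BL2
theorem t_PMU : S_PMU := Pool.Agent.W899.SAM.pmu t_NEP t_EXP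
theorem t_PML : S_PML := Pool.Agent.W764.SAM.pml

end Pool.Agent.W890.SF
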